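import Pool.Agent.H54.ResEx

namespace Pool.Agent.Results.MP_e0d2b2_an.BestE

universe u

theorem result :
    IsLeast {C : ℝ | 0 < C ∧ Pool.Agent.H54.ResEx.Admissible.{u} C} (Real.exp 1) :=
  ⟨⟨Real.exp_pos 1, Pool.Agent.H54.ResEx.upper⟩,
    fun _ h => Pool.Agent.H54.ResEx.lower h.1 h.2⟩

end Pool.Agent.Results.MP_e0d2b2_an.BestE
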